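import Pool.Agent.H7.ME.Stmts

/-!
# Board `me`, row EXPW: from the core to the block (MP_fd41b2_co)

The proof of the board `hz` (Pool/Agent/H71/HZ/EXP.lean), for `p ≥ 1`.
-/

set_option autoImplicit false

open Finset

namespace Pool.ME7

open Pool.Agent.H23.KT Pool.Agent.H46.KW Pool.KQ Pool.GT7 Pool.GU7 Pool.HZ7 Pool.IA7

namespace EXPx

lemma mem_non {V : Type} (G : SimpleGraph V) {X : Finset V} {u y : V} :
    y ∈ non G X u ↔ y ∈ X ∧ ¬ G.Adj u y := by
  classical
  unfold non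
  rw [mem_filter]

lemma nb_add_non {V : Type} (G : SimpleGraph V) (X : Finset V) (u : V) :
    (nb G X u).card + (non G X u).card = X.card := by
  classical
  unfold nb non
  exact card_filter_add_card_filter_not (s := X) (fun y => G.Adj u y)

lemma sum_non_comm {V : Type} (G : SimpleGraph V) (X Y : Finset V) :
    ∑ u ∈ X, (non G Y u).card = ∑ w ∈ Y, (non G X w).card := by
  classical
  unfold non
  simp_rw [card_filter]
  rw [sum_comm]
  exact sum_congr rfl fun w _ => sum_congr rfl fun u _ =>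
    if_congr (by rw [G.adj_comm]) rfl rfl

lemma sum_nb_comm {V : Type} (G : SimpleGraph V) (X Y : Finset V) :
    ∑ u ∈ X, (nb G Y u).card = ∑ w ∈ Y, (nb G X w).card := by
  classical
  unfold nb
  simp_rw [card_filter]
  rw [sum_comm]
  exact sum_congr rfl fun w _ => sum_congr rfl fun u _ =>
    if_congr (by rw [G.adj_comm]) rfl rfl

lemma non_mono {V : Type} (G : SimpleGraph V) {X Y : Finset V} (h : X ⊆ Y) (u : V) :
    (non G X u).card ≤ (non G Y u).card := by
  refine card_le_card fun z hz => ?_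
  rw [mem_non] at hz ⊢
  exact ⟨h hz.1, hz.2⟩

lemma nb_mono' {V : Type} (G : SimpleGraph V) {X Y : Finset V} (h : X ⊆ Y) (u : V) :
    (nb G X u).card ≤ (nb G Y u).card := by
  refine card_le_card fun z hz => ?_
  rw [mem_nb] at hz ⊢
  exact ⟨h hz.1, hz.2⟩

lemma card_nb_un {V : Type} [DecidableEq V] (G : SimpleGraph V) {b : ℕ} (Q : Fin b → Finset V)
    (hQ : Par G Q) (q : V) : (nb G (un Q) q).card = ∑ k, (nb G (Q k) q).card := by
  have h1 : nb G (un Q) q = univ.biUnion (fun k => nb G (Q k) q) := by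
    ext z
    rw [mem_nb, un, mem_biUnion, mem_biUnion]
    constructor
    · rintro ⟨⟨k, hk, hz⟩, hq⟩
      exact ⟨k, hk, (mem_nb G).2 ⟨hz, hq⟩⟩
    · rintro ⟨k, hk, hz⟩
      exact ⟨⟨k, hk, ((mem_nb G).1 hz).1⟩, ((mem_nb G).1 hz).2⟩
  rw [h1, card_biUnion]
  intro i _ j _ hij
  exact (hQ.dis i j hij).mono (nb_subset G _ _) (nb_subset G _ _)

lemma gre_use (hGRE : GREStmt) {V : Type} [Fintype V] [DecidableEq V] (G : SimpleGraph V)
    {p : ℕ} {Q : Fin (p + 4) → Finset V} (x : ℝ) (hx : 0 ≤ x)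
    (hmis : ∀ j, ∀ u ∈ Q j, ∀ k, k ≠ j → ((non G (Q k) u).card : ℝ) ≤ x)
    (hcb : CB G univ (p + 4)) (J : Finset (Fin (p + 4))) (hJ : J.Nonempty)
    (B : Fin (p + 4) → Finset V)
    (hB : ∀ j ∈ J, B j ⊆ Q j) (T : Finset V)
    (hT : ∀ t ∈ T, ∀ t' ∈ T, t ≠ t' → G.Adj t t')
    (hTB : ∀ t ∈ T, ∀ k ∈ J, ∀ u ∈ B k, G.Adj t u)
    (hc : p + 5 ≤ J.card + T.card) :
    ∃ k ∈ J, ((B k).card : ℝ) ≤ J.card * x := by
  by_contra hcon
  push Not at hcon
  obtain ⟨y, hy1, hy2⟩ := hGRE G (p + 4) B J x hJ hx (fun j hj u hu k hk hkj => by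
    refine le_trans ?_ (hmis j u (hB j hj hu) k hkj)
    exact_mod_cast non_mono G (hB k hk) u) hcon
  have hinj : Set.InjOn y (J : Set (Fin (p + 4))) := by
    intro i hi k hk hik
    by_contra hne
    have h := hy2 i hi k hk hne
    rw [hik] at h
    exact G.irrefl h
  have hdisj : Disjoint T (J.image y) := by
    rw [disjoint_left]
    intro t ht htj
    obtain ⟨k, hk, rfl⟩ := mem_image.1 htj
    exact G.irrefl (hTB _ ht k hk _ (hy1 k hk))
  have hcl : G.IsClique ((T ∪ J.image y : Finset V) : Set V) := by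
    intro u hu w hw huw
    rw [mem_coe, mem_union] at hu hw
    rcases hu with hu | hu
    · rcases hw with hw | hw
      · exact hT u hu w hw huw
      · obtain ⟨k, hk, rfl⟩ := mem_image.1 hw
        exact hTB u hu k hk _ (hy1 k hk)
    · obtain ⟨k, hk, rfl⟩ := mem_image.1 hu
      rcases hw with hw | hw
      · exact (hTB w hw k hk _ (hy1 k hk)).symm
      · obtain ⟨l, hl, rfl⟩ := mem_image.1 hw
        exact hy2 k hk l hl (fun h => huw (by rw [h]))
  have h1 := hcb _ (subset_univ _) hcl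
  rw [card_union_of_disjoint hdisj, card_image_of_injOn hinj] at h1
  omega

lemma k1 (hGRE : GREStmt) {V : Type} [Fintype V] [DecidableEq V] (G : SimpleGraph V)
    {p : ℕ} {Q : Fin (p + 4) → Finset V} (x : ℝ) (hx : 0 ≤ x)
    (hmis : ∀ j, ∀ u ∈ Q j, ∀ k, k ≠ j → ((non G (Q k) u).card : ℝ) ≤ x)
    (hcb : CB G univ (p + 4)) (z : V) :
    ∃ j, ((nb G (Q j) z).card : ℝ) ≤ ((p : ℝ) + 4) * x := by
  obtain ⟨k, -, hk⟩ := gre_use hGRE G x hx hmis hcb univ univ_nonempty (fun j => nb G (Q j) z)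
    (fun j _ => nb_subset G _ _) {z}
    (fun t ht t' ht' h => (h ((mem_singleton.1 ht).trans (mem_singleton.1 ht').symm)).elim)
    (fun t ht k _ u hu => by
      rw [mem_singleton.1 ht]
      exact ((mem_nb G).1 hu).2) (by simp)
  refine ⟨k, hk.trans (le_of_eq ?_)⟩
  simp

lemma k2 (hGRE : GREStmt) {V : Type} [Fintype V] [DecidableEq V] (G : SimpleGraph V)
    {p : ℕ} {Q : Fin (p + 4) → Finset V} (x : ℝ) (hx : 0 ≤ x)
    (hmis : ∀ j, ∀ u ∈ Q j, ∀ k, k ≠ j → ((non G (Q k) u).card : ℝ) ≤ x)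
    (hcb : CB G univ (p + 4)) (z z' : V) (hz : G.Adj z z') (j : Fin (p + 4)) :
    ∃ k, k ≠ j ∧ ((nb G (nb G (Q k) z) z').card : ℝ) ≤ ((p : ℝ) + 3) * x := by
  have hJ : (univ.erase j).card = p + 3 := by
    rw [card_erase_of_mem (mem_univ j), card_univ, Fintype.card_fin]
    omega
  obtain ⟨k, hk1, hk⟩ := gre_use hGRE G x hx hmis hcb (univ.erase j)
    (card_pos.1 (by omega))
    (fun j => nb G (nb G (Q j) z) z')
    (fun j _ => (nb_subset G _ _).trans (nb_subset G _ _)) {z, z'}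
    (fun t ht t' ht' h => by
      rw [mem_insert, mem_singleton] at ht ht'
      rcases ht with rfl | rfl <;> rcases ht' with rfl | rfl
      · exact (h rfl).elim
      · exact hz
      · exact hz.symm
      · exact (h rfl).elim)
    (fun t ht k _ u hu => by
      rw [mem_insert, mem_singleton] at ht
      have h1 := (mem_nb G).1 hu
      have h2 := (mem_nb G).1 h1.1
      rcases ht with rfl | rfl
      · exact h2.2
      · exact h1.2) (by rw [card_pair hz.ne, hJ])
  refine ⟨k, ne_of_mem_erase hk1, hk.trans (le_of_eq ?_)⟩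
  rw [hJ]
  push_cast
  ring

lemma nb_nb_ge {V : Type} (G : SimpleGraph V) (X : Finset V) (z z' : V) :
    X.card ≤ (nb G (nb G X z) z').card + (non G X z).card + (non G X z').card := by
  have h1 := nb_add_non G X z
  have h2 := nb_add_non G (nb G X z) z'
  have h3 := non_mono G (nb_subset G X z) z'
  omega

lemma nb_nb_ge' {V : Type} (G : SimpleGraph V) (X : Finset V) (z z' : V) :
    (nb G X z).card ≤ (nb G (nb G X z) z').card + (non G X z').card := by
  have h2 := nb_add_non G (nb G X z) z'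
  have h3 := non_mono G (nb_subset G X z) z'
  omega

/-- The number of edges between the core and a set outside. -/
lemma few {V : Type} [Fintype V] [DecidableEq V] (G : SimpleGraph V) {p r a : ℕ} {C₆ : ℝ}
    {Q : Fin (p + 4) → Finset V} (hG : G8 G p r a) (hQ : Cor G p r a C₆ Q) (A : Finset V)
    (hA : Disjoint (un Q) A) : ∑ q ∈ A, (nb G (un Q) q).card ≤ tot G Q := by
  rw [sum_nb_comm]
  have hdis : ∀ i ∈ (univ : Finset (Fin (p + 4))), ∀ j ∈ (univ : Finset (Fin (p + 4))), i ≠ j →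
      Disjoint (Q i) (Q j) := fun i _ j _ h => hQ.par.dis i j h
  have h0 : ∑ u ∈ un Q, (nb G A u).card = ∑ j, ∑ u ∈ Q j, (nb G A u).card := by
    unfold un
    exact sum_biUnion (fun i hi j hj h => hdis i (mem_univ i) j (mem_univ j) h)
  rw [h0]
  unfold tot
  refine sum_le_sum fun j _ => ?_
  rw [sum_comm]
  refine sum_le_sum fun u hu => ?_
  -- the degree
  obtain ⟨v, hv, hdeg, hsub⟩ := hQ.full j
  have h1 : (p + 3) * a + r ≤ ∑ k ∈ univ.erase j, (Q k).card := by
    rw [← hdeg]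
    refine le_trans (card_le_card ?_) (card_biUnion_le (s := univ.erase j) (t := Q))
    intro w hw
    have hw1 := hsub hw
    rw [un, mem_biUnion] at hw1
    obtain ⟨k, -, hk⟩ := hw1
    rw [mem_biUnion]
    refine ⟨k, mem_erase.2 ⟨?_, mem_univ k⟩, hk⟩
    rintro rfl
    exact hQ.par.ind k v hv w hk ((mem_nb G).1 hw).2
  have h2 : ∑ k ∈ univ.erase j, (Q k).card =
      ∑ k ∈ univ.erase j, (nb G (Q k) u).card + ∑ k ∈ univ.erase j, (non G (Q k) u).card := by
    rw [← sum_add_distrib]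
    exact sum_congr rfl fun k _ => (nb_add_non G (Q k) u).symm
  have h3 : ∑ k ∈ univ.erase j, (nb G (Q k) u).card ≤ (nb G (un Q) u).card := by
    rw [card_nb_un G Q hQ.par]
    exact sum_le_sum_of_subset (erase_subset _ _)
  have h4 : (nb G (un Q) u).card + (nb G A u).card ≤ (nb G univ u).card := by
    rw [← card_union_of_disjoint (hA.mono (nb_subset G _ _) (nb_subset G _ _))]
    refine card_le_card fun z hz => ?_
    rw [mem_union, mem_nb, mem_nb] at hz
    rw [mem_nb]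
    rcases hz with hz | hz
    · exact ⟨mem_univ z, hz.2⟩
    · exact ⟨mem_univ z, hz.2⟩
  have h5 := hG.deg u
  omega

end EXPx

open EXPx in
/-- Row EXPW. -/
theorem expw_thm (hGRE : GREStmt) : EXPWStmt := by
  intro p r hpr C₆ hC₆
  obtain ⟨a₀, ha₀⟩ : ∃ a₀ : ℕ, 64 * ((p : ℝ) + 5) ^ 2 * C₆ + 1 ≤ a₀ := exists_nat_ge _
  refine ⟨C₆ * (2 * ((p : ℝ) + 4) ^ 2 + 3), by positivity, a₀, ?_⟩
  intro a ha V _ _ G Q hG hQ
  have hpR : (1 : ℝ) ≤ p := by exact_mod_cast hpr.p1
  have haR : 64 * ((p : ℝ) + 5) ^ 2 * C₆ + 1 ≤ a := ha₀.trans (by exact_mod_cast ha)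
  have hA0 : (0 : ℝ) < a := by
    have : 0 ≤ 64 * ((p : ℝ) + 5) ^ 2 * C₆ := by positivity
    linarith
  -- the numbers
  obtain ⟨γ, hγ⟩ : ∃ γ : ℝ, γ = ((p : ℝ) + 5) * e1 p * a := ⟨_, rfl⟩
  obtain ⟨γ₂, hγ₂⟩ : ∃ γ₂ : ℝ, γ₂ = (a : ℝ) / (14 * ((p : ℝ) + 5)) := ⟨_, rfl⟩
  have hγ0 : 0 ≤ γ := by
    rw [hγ]
    unfold e1
    positivity
  have hγ12 : γ ≤ γ₂ / 2 := by
    have h1 : ((p : ℝ) + 5) * e1 p ≤ 1 / (28 * ((p : ℝ) + 5)) := by
      unfold e1
      rw [mul_one_div, div_le_div_iff₀ (by positivity) (by positivity)]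
      nlinarith [mul_nonneg (sub_nonneg.2 hpR) (sub_nonneg.2 hpR),
        mul_nonneg (mul_nonneg (sub_nonneg.2 hpR) (sub_nonneg.2 hpR)) (sub_nonneg.2 hpR)]
    calc γ = ((p : ℝ) + 5) * e1 p * a := hγ
      _ ≤ 1 / (28 * ((p : ℝ) + 5)) * a := mul_le_mul_of_nonneg_right h1 hA0.le
      _ = γ₂ / 2 := by
        rw [hγ₂]
        field_simp
        ring
  have hγ3 : ((p : ℝ) + 5) * γ₂ = a / 14 := by
    rw [hγ₂]
    field_simp
  have hγ20 : 0 ≤ γ₂ := by linarith
  have n1 : γ₂ ≤ a / 84 := by nlinarith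
  have n2 : ((p : ℝ) + 4) * γ ≤ a / 28 := by nlinarith
  have n2' : ((p : ℝ) + 3) * γ ≤ a / 28 := by nlinarith
  have n4 : 4 * (((p : ℝ) + 5) * C₆) ≤ γ₂ := by
    rw [hγ₂, le_div_iff₀ (by positivity)]
    nlinarith
  have n3 : 24 * C₆ ≤ γ₂ := by nlinarith
  have n5 : ((p : ℝ) + 3) * γ₂ ≤ a / 14 := by nlinarith
  have hmis : ∀ j, ∀ u ∈ Q j, ∀ k, k ≠ j → ((non G (Q k) u).card : ℝ) ≤ γ := by
    intro j u hu k hk
    rw [hγ]
    exact hQ.mis j u hu k hk
  have hcb := hG.cb
  -- the new parts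
  obtain ⟨Q', hQ'⟩ : ∃ Q' : Fin (p + 4) → Finset V, ∀ j z, z ∈ Q' j ↔
      ∀ k, k ≠ j → ((non G (Q k) z).card : ℝ) ≤ γ₂ := by
    classical
    exact ⟨fun j => univ.filter (fun z => ∀ k, k ≠ j → ((non G (Q k) z).card : ℝ) ≤ γ₂),
      fun j z => by simp⟩
  have hsub : ∀ j, Q j ⊆ Q' j := by
    intro j z hz
    rw [hQ']
    intro k hk
    have := hmis j z hz k hk
    linarith
  have hnR : ∀ (X : Finset V) (u : V), ((nb G X u).card : ℝ) + ((non G X u).card : ℝ) = X.card := by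
    intro X u
    exact_mod_cast nb_add_non G X u
  have hdis : ∀ i j, i ≠ j → ∀ z, z ∈ Q' i → z ∈ Q' j → False := by
    intro i j hij z hi hj
    rw [hQ'] at hi hj
    obtain ⟨l, hl⟩ := k1 hGRE G γ hγ0 hmis hcb z
    have h1 : ((non G (Q l) z).card : ℝ) ≤ γ₂ := by
      by_cases h : l = i
      · exact hj l (by rw [h]; exact hij)
      · exact hi l h
    have h2 := hnR (Q l) z
    have h3 := (hQ.siz l).1
    linarith
  have hind : ∀ i, ∀ u ∈ Q' i, ∀ w ∈ Q' i, ¬ G.Adj u w := by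
    intro i u hu w hw huw
    rw [hQ'] at hu hw
    obtain ⟨l, hl1, hl⟩ := k2 hGRE G γ hγ0 hmis hcb u w huw i
    have h1 := hu l hl1
    have h2 := hw l hl1
    have h3 : ((Q l).card : ℝ) ≤ ((nb G (nb G (Q l) u) w).card : ℝ) + (non G (Q l) u).card +
        (non G (Q l) w).card := by exact_mod_cast nb_nb_ge G (Q l) u w
    have h4 := (hQ.siz l).1
    linarith
  have hpar : Par G Q' := ⟨fun i j hij => by
    rw [disjoint_left]
    exact fun z hz hz' => hdis i j hij z hz hz', hind⟩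
  -- the number of new vertices
  have hun : un Q ⊆ un Q' := by
    intro z hz
    rw [un, mem_biUnion] at hz ⊢
    obtain ⟨k, hk, hz⟩ := hz
    exact ⟨k, hk, hsub k hz⟩
  obtain ⟨A, hA⟩ : ∃ A : Finset V, A = un Q' \ un Q := ⟨_, rfl⟩
  have hAd : Disjoint (un Q) A := by
    rw [hA]
    exact disjoint_sdiff
  have hAc : (A.card : ℝ) ≤ C₆ := by
    have h1 : ((∑ q ∈ A, (nb G (un Q) q).card : ℕ) : ℝ) ≤ C₆ * a :=
      le_trans (by exact_mod_cast few G hG hQ A hAd) hQ.tot
    have h2 : ∀ q ∈ A, (a : ℝ) ≤ ((nb G (un Q) q).card : ℝ) := by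
      intro q hq
      rw [hA, mem_sdiff, un, mem_biUnion] at hq
      obtain ⟨⟨j, -, hj⟩, -⟩ := hq
      rw [hQ'] at hj
      rw [card_nb_un G Q hQ.par]
      push_cast
      have h3 : ∑ k ∈ univ.erase j, ((nb G (Q k) q).card : ℝ) ≤ ∑ k, ((nb G (Q k) q).card : ℝ) :=
        sum_le_sum_of_subset_of_nonneg (erase_subset _ _) (fun _ _ _ => by positivity)
      have h4 : ∑ k ∈ univ.erase j, ((a : ℝ) / 2) ≤ ∑ k ∈ univ.erase j, ((nb G (Q k) q).card : ℝ) := by
        refine sum_le_sum fun k hk => ?_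
        have h5 := hj k (ne_of_mem_erase hk)
        have h6 := hnR (Q k) q
        have h7 := (hQ.siz k).1
        linarith
      rw [sum_const, card_erase_of_mem (mem_univ j), card_univ, Fintype.card_fin, nsmul_eq_mul] at h4
      have h8 : ((p + 4 - 1 : ℕ) : ℝ) = (p : ℝ) + 3 := by
        rw [show p + 4 - 1 = p + 3 by omega]
        push_cast
        ring
      rw [h8] at h4
      nlinarith
    have h3 : (A.card : ℝ) * a ≤ C₆ * a := by
      refine le_trans ?_ h1
      push_cast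
      rw [← nsmul_eq_mul]
      exact card_nsmul_le_sum A _ _ h2
    exact le_of_mul_le_mul_right h3 hA0
  have hdA : ∀ j, Q' j \ Q j ⊆ A := by
    intro j z hz
    rw [mem_sdiff] at hz
    rw [hA, mem_sdiff]
    constructor
    · rw [un, mem_biUnion]
      exact ⟨j, mem_univ j, hz.1⟩
    · intro h
      rw [un, mem_biUnion] at h
      obtain ⟨k, -, hk⟩ := h
      by_cases hkj : k = j
      · exact hz.2 (hkj ▸ hk)
      · exact hdis k j hkj z (hsub k hk) hz.1
  have hdc : ∀ j, ((Q' j \ Q j).card : ℝ) ≤ C₆ := fun j =>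
    le_trans (by exact_mod_cast card_le_card (hdA j)) hAc
  have hnon : ∀ k u, ((non G (Q' k) u).card : ℝ) ≤ (non G (Q k) u).card + C₆ := by
    intro k u
    have h1 : non G (Q' k) u ⊆ non G (Q k) u ∪ (Q' k \ Q k) := by
      intro z hz
      rw [mem_non] at hz
      rw [mem_union, mem_non, mem_sdiff]
      by_cases h : z ∈ Q k
      · exact Or.inl ⟨h, hz.2⟩
      · exact Or.inr ⟨hz.1, h⟩
    have h2 : ((non G (Q' k) u).card : ℝ) ≤ (non G (Q k) u).card + (Q' k \ Q k).card := by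
      exact_mod_cast (card_le_card h1).trans (card_union_le _ _)
    have h3 := hdc k
    linarith
  have hE : ∀ j : Fin (p + 4), ((univ.erase j).card : ℝ) = (p : ℝ) + 3 := by
    intro j
    rw [card_erase_of_mem (mem_univ j), card_univ, Fintype.card_fin,
      show p + 4 - 1 = p + 3 by omega]
    push_cast
    ring
  have hmis' : ∀ j, ∀ u ∈ Q' j,
      ((∑ k ∈ univ.erase j, (non G (Q' k) u).card : ℕ) : ℝ) ≤ a / 4 := by
    intro j u hu
    rw [hQ'] at hu
    push_cast
    have h1 : ∑ k ∈ univ.erase j, ((non G (Q' k) u).card : ℝ) ≤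
        ∑ k ∈ univ.erase j, (γ₂ + C₆) := by
      refine sum_le_sum fun k hk => ?_
      have h2 := hu k (ne_of_mem_erase hk)
      have h3 := hnon k u
      linarith
    rw [sum_const, nsmul_eq_mul, hE j] at h1
    nlinarith
  refine ⟨Q', hpar, ?_, hmis', ?_, ?_, ?_⟩
  · -- sizes
    intro j
    have h1 := (hQ.siz j).1
    have h2 := (hQ.siz j).2
    have h3 : ((Q j).card : ℝ) ≤ (Q' j).card := by exact_mod_cast card_le_card (hsub j)
    have h4 : ((Q' j).card : ℝ) ≤ (Q j).card + (Q' j \ Q j).card := by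
      have h5 : Q' j ⊆ Q j ∪ (Q' j \ Q j) := by
        intro z hz
        rw [mem_union, mem_sdiff]
        by_cases h : z ∈ Q j
        · exact Or.inl h
        · exact Or.inr ⟨hz, h⟩
      exact_mod_cast (card_le_card h5).trans (card_union_le _ _)
    have h5 := hdc j
    have h6 : 2 * C₆ ≤ C₆ * (2 * ((p : ℝ) + 4) ^ 2 + 3) := by
      have : 0 ≤ C₆ * (2 * ((p : ℝ) + 4) ^ 2) := by positivity
      linarith
    constructor <;> linarith
  · -- missing pairs
    have h1 : ∀ i, ∀ k ∈ univ.erase i, ((∑ u ∈ Q' i, (non G (Q' k) u).card : ℕ) : ℝ) ≤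
        ((∑ u ∈ Q i, (non G (Q k) u).card : ℕ) : ℝ) + 2 * C₆ * a := by
      intro i k hk
      have hki := ne_of_mem_erase hk
      have h2 : ∑ u ∈ Q' i, (non G (Q' k) u).card =
          ∑ u ∈ Q' i \ Q i, (non G (Q' k) u).card + ∑ u ∈ Q i, (non G (Q' k) u).card :=
        (sum_sdiff (hsub i)).symm
      have h3 : ∀ u, (non G (Q' k) u).card ≤ (non G (Q k) u).card +
          (non G (Q' k \ Q k) u).card := by
        intro u
        refine (card_le_card ?_).trans (card_union_le _ _)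
        intro z hz
        rw [mem_non] at hz
        rw [mem_union, mem_non, mem_non, mem_sdiff]
        by_cases h : z ∈ Q k
        · exact Or.inl ⟨h, hz.2⟩
        · exact Or.inr ⟨⟨hz.1, h⟩, hz.2⟩
      have h4 : ∑ u ∈ Q i, (non G (Q' k) u).card ≤ ∑ u ∈ Q i, (non G (Q k) u).card +
          ∑ w ∈ Q' k \ Q k, (non G (Q i) w).card := by
        rw [sum_non_comm G (Q' k \ Q k) (Q i), ← sum_add_distrib]
        exact sum_le_sum fun u _ => h3 u
      have h5 : ((∑ w ∈ Q' k \ Q k, (non G (Q i) w).card : ℕ) : ℝ) ≤ C₆ * a := by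
        push_cast
        have h6 : ∑ w ∈ Q' k \ Q k, ((non G (Q i) w).card : ℝ) ≤ ∑ w ∈ Q' k \ Q k, γ₂ := by
          refine sum_le_sum fun w hw => ?_
          have h7 := (hQ' k w).1 (mem_sdiff.1 hw).1
          exact h7 i hki.symm
        rw [sum_const, nsmul_eq_mul] at h6
        refine h6.trans ?_
        have h8 := hdc k
        have h9 : γ₂ ≤ a := by linarith
        exact mul_le_mul h8 h9 hγ20 hC₆.le
      have h6 : ((∑ u ∈ Q' i \ Q i, (non G (Q' k) u).card : ℕ) : ℝ) ≤ C₆ * a := by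
        push_cast
        have h7 : ∑ u ∈ Q' i \ Q i, ((non G (Q' k) u).card : ℝ) ≤
            ∑ u ∈ Q' i \ Q i, ((a : ℝ) / 4) := by
          refine sum_le_sum fun u hu => ?_
          have h8 := hmis' i u (mem_sdiff.1 hu).1
          refine le_trans ?_ h8
          exact_mod_cast single_le_sum (f := fun k => (non G (Q' k) u).card)
            (fun _ _ => Nat.zero_le _) hk
        rw [sum_const, nsmul_eq_mul] at h7
        refine h7.trans ?_
        have h8 := hdc i
        exact mul_le_mul h8 (by linarith) (by positivity) hC₆.le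
      have h7 : ((∑ u ∈ Q i, (non G (Q' k) u).card : ℕ) : ℝ) ≤
          ((∑ u ∈ Q i, (non G (Q k) u).card : ℕ) : ℝ) +
          ((∑ w ∈ Q' k \ Q k, (non G (Q i) w).card : ℕ) : ℝ) := by exact_mod_cast h4
      rw [h2]
      push_cast at h5 h6 h7 ⊢
      linarith
    have h2 : (tot G Q' : ℝ) ≤ (tot G Q : ℝ) + ((p : ℝ) + 4) * (((p : ℝ) + 3) * (2 * C₆ * a)) := by
      unfold tot
      rw [Nat.cast_sum, Nat.cast_sum]
      have h3 : ((p : ℝ) + 4) * (((p : ℝ) + 3) * (2 * C₆ * a)) =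
          ∑ i : Fin (p + 4), ∑ k ∈ univ.erase i, (2 * C₆ * a) := by
        have h4 : ∀ i : Fin (p + 4), ∑ k ∈ univ.erase i, (2 * C₆ * a) =
            ((p : ℝ) + 3) * (2 * C₆ * a) := by
          intro i
          rw [sum_const, nsmul_eq_mul, hE i]
        rw [sum_congr rfl (fun i _ => h4 i), sum_const, card_univ, Fintype.card_fin,
          nsmul_eq_mul]
        push_cast
        ring
      rw [h3, ← sum_add_distrib]
      refine sum_le_sum fun i _ => ?_
      rw [Nat.cast_sum, Nat.cast_sum, ← sum_add_distrib]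
      exact sum_le_sum fun k hk => h1 i k hk
    have h3 := hQ.tot
    have h4 : 0 ≤ C₆ * a := by positivity
    have h5 : ((p : ℝ) + 4) * ((p : ℝ) + 3) ≤ ((p : ℝ) + 4) ^ 2 := by nlinarith
    have h6 : ((p : ℝ) + 4) * (((p : ℝ) + 3) * (2 * C₆ * a)) ≤
        2 * ((p : ℝ) + 4) ^ 2 * (C₆ * a) := by nlinarith
    have h7 : C₆ * (2 * ((p : ℝ) + 4) ^ 2 + 3) * a =
        2 * ((p : ℝ) + 4) ^ 2 * (C₆ * a) + 3 * (C₆ * a) := by ring
    rw [h7]
    linarith
  · -- full vertices
    intro j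
    obtain ⟨v, hv, h1, h2⟩ := hQ.full j
    exact ⟨v, hsub j hv, h1, h2.trans hun⟩
  · -- vertices outside
    intro q hq
    have hqj : ∀ j, q ∉ Q' j := by
      intro j hj
      apply hq
      rw [un, mem_biUnion]
      exact ⟨j, mem_univ j, hj⟩
    have h1 : ((nb G (un Q') q).card : ℝ) ≤ ∑ k, ((nb G (Q k) q).card : ℝ) + C₆ := by
      have h2 : nb G (un Q') q ⊆ nb G (un Q) q ∪ A := by
        intro z hz
        rw [mem_nb] at hz
        rw [mem_union, mem_nb, hA, mem_sdiff]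
        by_cases h : z ∈ un Q
        · exact Or.inl ⟨h, hz.2⟩
        · exact Or.inr ⟨hz.1, h⟩
      have h3 : ((nb G (un Q') q).card : ℝ) ≤ (nb G (un Q) q).card + A.card := by
        exact_mod_cast (card_le_card h2).trans (card_union_le _ _)
      rw [card_nb_un G Q hQ.par] at h3
      push_cast at h3
      linarith
    have hle : ∀ k, ((nb G (Q k) q).card : ℝ) ≤ a + C₆ := by
      intro k
      have h2 := hnR (Q k) q
      have h3 := (hQ.siz k).2
      have h4 : (0 : ℝ) ≤ (non G (Q k) q).card := by positivity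
      linarith
    -- the sum without two parts
    have hsum : ∀ i k, i ≠ k → ∑ l, ((nb G (Q l) q).card : ℝ) ≤
        (nb G (Q i) q).card + (nb G (Q k) q).card + ((p : ℝ) + 2) * (a + C₆) := by
      intro i k hik
      rw [← add_sum_erase univ _ (mem_univ i),
        ← add_sum_erase (univ.erase i) _ (mem_erase.2 ⟨hik.symm, mem_univ k⟩)]
      have h2 : ∑ l ∈ (univ.erase i).erase k, ((nb G (Q l) q).card : ℝ) ≤
          ∑ l ∈ (univ.erase i).erase k, ((a : ℝ) + C₆) := sum_le_sum fun l _ => hle l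
      rw [sum_const, nsmul_eq_mul, card_erase_of_mem (mem_erase.2 ⟨hik.symm, mem_univ k⟩),
        card_erase_of_mem (mem_univ i), card_univ, Fintype.card_fin,
        show p + 4 - 1 - 1 = p + 2 by omega] at h2
      push_cast at h2
      linarith
    have htgt : ((p : ℝ) + 3 - 1 / (32 * ((p : ℝ) + 5))) * a = ((p : ℝ) + 3) * a - 7 / 16 * γ₂ := by
      rw [hγ₂]
      field_simp
      ring
    rw [htgt]
    obtain ⟨j₀, hj₀⟩ := k1 hGRE G γ hγ0 hmis hcb q
    rcases (nb G (Q j₀) q).eq_empty_or_nonempty with he | ⟨y, hy⟩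
    · have h2 := hqj j₀
      rw [hQ'] at h2
      push Not at h2
      obtain ⟨k, hk, hk2⟩ := h2
      have h3 := hsum j₀ k hk.symm
      rw [he, card_empty] at h3
      have h4 := hnR (Q k) q
      have h5 := (hQ.siz k).2
      push_cast at h3
      nlinarith
    · have hy' := (mem_nb G).1 hy
      obtain ⟨k, hk, hk2⟩ := k2 hGRE G γ hγ0 hmis hcb q y hy'.2 j₀
      have h2 : ((nb G (Q k) q).card : ℝ) ≤ ((nb G (nb G (Q k) q) y).card : ℝ) +
          (non G (Q k) y).card := by exact_mod_cast nb_nb_ge' G (Q k) q y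
      have h3 := hmis j₀ y hy'.1 k hk
      have h4 := hsum j₀ k hk.symm
      nlinarith

end Pool.ME7
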